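import Pool.Agent.Helper50.GP.St

set_option autoImplicit false

/-!
Project GP, module FHB: `H` is finite.
-/

namespace Pool.Agent.Helper28.GP

open Pool.Agent.Helper50.GP

private theorem comm_closure {H : Type} [Group H] (x a b : H) (h1 : x * a = a * x)
    (h2 : x * b = b * x) : ∀ y ∈ Subgroup.closure ({a, b} : Set H), x * y = y * x := by
  have hle : Subgroup.closure ({a, b} : Set H) ≤ Subgroup.centralizer ({x} : Set H) := by
    rw [Subgroup.closure_le]
    rintro z hz
    rw [SetLike.mem_coe, Subgroup.mem_centralizer_iff]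
    intro t ht
    rw [Set.mem_singleton_iff] at ht
    subst ht
    rcases hz with rfl | hz
    · exact h1
    · rw [Set.mem_singleton_iff] at hz
      subst hz
      exact h2
  intro y hy
  exact Subgroup.mem_centralizer_iff.1 (hle hy) x (Set.mem_singleton x)

theorem hFHB (hCFS : StCFS) : StFHB := by
  intro ι _ ρ hfin H _ u b huu hub hbb hρ hgen
  have hT : ∀ k, Finite (Subgroup.closure ({u k, b k} : Set H)) := by
    intro k
    have hk : ∀ r ∈ {ω : FreeGroup (Fin 2) | ω ∈ ρ}, FreeGroup.lift ![u k, b k] r = 1 :=
      fun r hr => hρ k r hr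
    have hle : Subgroup.closure ({u k, b k} : Set H) ≤ (PresentedGroup.toGroup hk).range := by
      rw [Subgroup.closure_le]
      rintro z hz
      rcases hz with rfl | hz
      · exact ⟨PresentedGroup.of 0, by simp⟩
      · rw [Set.mem_singleton_iff] at hz
        subst hz
        exact ⟨PresentedGroup.of 1, by simp⟩
    have hf : ((PresentedGroup.toGroup hk).range : Set H).Finite := Set.finite_range _
    exact hf.subset hle
  have hc : ∀ k l, k ≠ l → ∀ x ∈ Subgroup.closure ({u k, b k} : Set H),
      ∀ y ∈ Subgroup.closure ({u l, b l} : Set H), x * y = y * x := by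
    intro k l hkl x hx y hy
    have h1 : y * u k = u k * y :=
      (comm_closure (u k) (u l) (b l) (huu k l hkl) (hub k l hkl) y hy).symm
    have h2 : y * b k = b k * y :=
      (comm_closure (b k) (u l) (b l) (hub l k (Ne.symm hkl)).symm (hbb k l) y hy).symm
    exact (comm_closure y (u k) (b k) h1 h2 x hx).symm
  have h := hCFS H ι (fun k => Subgroup.closure ({u k, b k} : Set H)) hT hc
  have htop : (⨆ k, Subgroup.closure ({u k, b k} : Set H)) = ⊤ := by
    rw [eq_top_iff, ← hgen, Subgroup.closure_le]
    rintro z (⟨k, rfl⟩ | ⟨k, rfl⟩)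
    · exact (le_iSup (fun k => Subgroup.closure ({u k, b k} : Set H)) k)
        (Subgroup.subset_closure (by simp))
    · exact (le_iSup (fun k => Subgroup.closure ({u k, b k} : Set H)) k)
        (Subgroup.subset_closure (by simp))
  rw [htop] at h
  exact Finite.of_equiv _ (Subgroup.topEquiv (G := H)).toEquiv

end Pool.Agent.Helper28.GP
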