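import Pool.Agent.Helper50.GP.St

set_option autoImplicit false

/-!
Project GP, module SCH: the theorem of Schur.
-/

open scoped commutatorElement

namespace Pool.Agent.Helper28.GP

open Pool.Agent.Helper50.GP

private theorem sch {G : Type} [Group G] (h : (Subgroup.center G).index ≠ 0) :
    Finite (commutator G) := by
  have hfi : (Subgroup.center G).FiniteIndex := ⟨h⟩
  have hfin : Finite (G ⧸ Subgroup.center G) := inferInstance
  have hset : (commutatorSet G).Finite := by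
    refine Set.Finite.subset (Set.finite_range
      (fun x : (G ⧸ Subgroup.center G) × (G ⧸ Subgroup.center G) => ⁅x.1.out, x.2.out⁆)) ?_
    rintro g ⟨g₁, g₂, rfl⟩
    refine ⟨((g₁ : G ⧸ Subgroup.center G), (g₂ : G ⧸ Subgroup.center G)), ?_⟩
    obtain ⟨z₁, hz₁⟩ := QuotientGroup.mk_out_eq_mul (Subgroup.center G) g₁
    obtain ⟨z₂, hz₂⟩ := QuotientGroup.mk_out_eq_mul (Subgroup.center G) g₂
    simp only
    rw [hz₁, hz₂]
    have c₁ := Subgroup.mem_center_iff.1 z₁.2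
    have c₂ := Subgroup.mem_center_iff.1 z₂.2
    rw [commutatorElement_def, commutatorElement_def, mul_inv_rev, mul_inv_rev]
    have e1 : g₁ * (z₁ : G) * (g₂ * z₂) * ((z₁ : G)⁻¹ * g₁⁻¹) * ((z₂ : G)⁻¹ * g₂⁻¹) =
        g₁ * (z₁ * (g₂ * z₂) * (z₁ : G)⁻¹) * g₁⁻¹ * ((z₂ : G)⁻¹ * g₂⁻¹) := by group
    have e2 : (z₁ : G) * (g₂ * z₂) * (z₁ : G)⁻¹ = g₂ * z₂ := by
      rw [← c₁ (g₂ * z₂)]
      group
    have e3 : g₁ * (g₂ * (z₂ : G)) * g₁⁻¹ * ((z₂ : G)⁻¹ * g₂⁻¹) =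
        g₁ * g₂ * (z₂ * g₁⁻¹ * (z₂ : G)⁻¹) * g₂⁻¹ := by group
    have e4 : (z₂ : G) * g₁⁻¹ * (z₂ : G)⁻¹ = g₁⁻¹ := by
      rw [← c₂ g₁⁻¹]
      group
    rw [e1, e2, e3, e4]
  have : Finite (commutatorSet G) := hset
  infer_instance

theorem hSCH : StSCH := by
  intro G _ h
  exact sch h

end Pool.Agent.Helper28.GP
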