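import Pool.Agent.Helper50.GP.St

set_option autoImplicit false

/-!
Project GP, module TOR: torsion of `c`.
-/

namespace Pool.Agent.Helper28.GP

open Pool.Agent.Helper50.GP

private theorem conj_pow' {G : Type} [Group G] (s c : G) (g : ℕ) (h : s⁻¹ * c * s = c ^ g)
    (n : ℕ) : (s ^ n)⁻¹ * c * s ^ n = c ^ (g ^ n) := by
  induction n with
  | zero => simp
  | succ n ih =>
    have h1 : (s ^ (n + 1))⁻¹ * c * s ^ (n + 1) = s⁻¹ * ((s ^ n)⁻¹ * c * s ^ n) * s := by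
      rw [pow_succ, mul_inv_rev]
      group
    have h2 : s⁻¹ * c ^ (g ^ n) * s = (s⁻¹ * c * s) ^ (g ^ n) := by
      have := conj_pow (i := g ^ n) (a := s⁻¹) (b := c)
      rw [inv_inv] at this
      exact this.symm
    rw [h1, ih, h2, h, ← pow_mul, pow_succ, mul_comm]

private theorem tor {G : Type} [Group G] (w c : G) (a b g : ℕ) (hg : 2 ≤ g) (ha : 1 ≤ a) (_hb : 1 ≤ b)
    (h1 : (w ^ b)⁻¹ * c * w ^ b = c ^ g)
    (h2 : w ^ a * (c⁻¹ * w ^ a * c) = (c⁻¹ * w ^ a * c) * w ^ a) :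
    c ^ ((g ^ a - 1) ^ 2) = 1 ∧ ∃ r ≥ 1, w ^ (a * b * r) * c = c * w ^ (a * b * r) := by
  -- `t = w^(ab)`
  set t := w ^ (a * b) with ht
  have hga : 1 ≤ g ^ a := Nat.one_le_pow _ _ (by omega)
  have htc : t⁻¹ * c * t = c ^ (g ^ a) := by
    have := conj_pow' (w ^ b) c g h1 a
    rw [← pow_mul, mul_comm b a] at this
    exact this
  have hcomm : Commute (w ^ a) (c⁻¹ * w ^ a * c) := h2
  have hcb : Commute t (c⁻¹ * t * c) := by
    have h3 : (c⁻¹ * w ^ a * c) ^ b = c⁻¹ * t * c := by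
      have := conj_pow (i := b) (a := c⁻¹) (b := w ^ a)
      rw [inv_inv, ← pow_mul] at this
      exact this
    have h4 := hcomm.pow_pow b b
    rw [h3, ← pow_mul] at h4
    exact h4
  -- `c⁻¹ t c = t (t⁻¹ c⁻¹ t) c`
  have h5 : c⁻¹ * t * c = t * ((c ^ (g ^ a - 1))⁻¹) := by
    have h6 : t⁻¹ * c⁻¹ * t = (c ^ (g ^ a))⁻¹ := by
      rw [← htc]
      group
    have h7 : c ^ (g ^ a) = c ^ (g ^ a - 1) * c := by
      rw [← pow_succ]
      congr 1
      omega
    have h8 : (c ^ (g ^ a))⁻¹ = (c ^ (g ^ a - 1))⁻¹ * c⁻¹ := by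
      have h9 : c ^ (g ^ a) = c * c ^ (g ^ a - 1) := by
        rw [← pow_succ']
        congr 1
        omega
      rw [h9, mul_inv_rev]
    calc c⁻¹ * t * c = t * (t⁻¹ * c⁻¹ * t) * c := by group
      _ = t * ((c ^ (g ^ a - 1))⁻¹) := by rw [h6, h8]; group
  have h10 : Commute t (c ^ (g ^ a - 1)) := by
    rw [h5] at hcb
    have h11 : Commute t ((c ^ (g ^ a - 1))⁻¹) := by
      have := hcb
      unfold Commute SemiconjBy at this ⊢
      have e : t * (t * (c ^ (g ^ a - 1))⁻¹) = t * ((c ^ (g ^ a - 1))⁻¹ * t) := by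
        rw [this]
        group
      exact mul_left_cancel e
    have := h11.inv_right
    rwa [inv_inv] at this
  have h12 : c ^ ((g ^ a - 1) ^ 2) = 1 := by
    have h13 : t⁻¹ * c ^ (g ^ a - 1) * t = c ^ ((g ^ a) * (g ^ a - 1)) := by
      have := conj_pow (i := g ^ a - 1) (a := t⁻¹) (b := c)
      rw [inv_inv, htc, ← pow_mul] at this
      exact this.symm
    have h14 : t⁻¹ * c ^ (g ^ a - 1) * t = c ^ (g ^ a - 1) := by
      rw [mul_assoc, ← h10.eq]
      group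
    rw [h14] at h13
    have h15 : g ^ a * (g ^ a - 1) = (g ^ a - 1) ^ 2 + (g ^ a - 1) := by
      obtain ⟨k, hk⟩ := Nat.exists_eq_add_of_le hga
      rw [hk, Nat.add_sub_cancel_left]
      ring
    rw [h15, pow_add] at h13
    have := mul_eq_right.1 h13.symm
    exact this
  refine ⟨h12, ?_⟩
  -- the order of `c` is coprime to `g`
  have hcop : Nat.Coprime (g ^ a) ((g ^ a - 1) ^ 2) := by
    apply Nat.Coprime.pow_right
    have : g ^ a = (g ^ a - 1) + 1 := by omega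
    rw [this, Nat.add_sub_cancel]
    exact (Nat.coprime_self_add_left.2 (Nat.coprime_one_left _)).symm.symm
  have hpos : 0 < (g ^ a - 1) ^ 2 := by
    have : 2 ≤ g ^ a := le_trans hg (Nat.le_self_pow (by omega) g)
    have h16 : 0 < g ^ a - 1 := by omega
    positivity
  refine ⟨Nat.totient ((g ^ a - 1) ^ 2), Nat.totient_pos.2 hpos, ?_⟩
  have h17 := conj_pow' t c (g ^ a) htc (Nat.totient ((g ^ a - 1) ^ 2))
  have h18 : c ^ ((g ^ a) ^ Nat.totient ((g ^ a - 1) ^ 2)) = c := by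
    have h19 := Nat.ModEq.pow_totient hcop
    have h20 : (g ^ a) ^ Nat.totient ((g ^ a - 1) ^ 2) ≡ 1 [MOD orderOf c] :=
      h19.of_dvd (orderOf_dvd_of_pow_eq_one h12)
    have := pow_eq_pow_iff_modEq.2 h20
    rwa [pow_one] at this
  rw [h18, ht, ← pow_mul] at h17
  calc w ^ (a * b * Nat.totient ((g ^ a - 1) ^ 2)) * c
      = w ^ (a * b * Nat.totient ((g ^ a - 1) ^ 2)) *
        ((w ^ (a * b * Nat.totient ((g ^ a - 1) ^ 2)))⁻¹ * c *
          w ^ (a * b * Nat.totient ((g ^ a - 1) ^ 2))) := by rw [h17]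
    _ = c * w ^ (a * b * Nat.totient ((g ^ a - 1) ^ 2)) := by group

theorem hTOR : StTOR := by
  intro G _ w c a b g hg ha hb h1 h2
  obtain ⟨h, r, hr, h'⟩ := tor w c a b g hg ha hb h1 h2
  exact ⟨h, r, hr, h'⟩

end Pool.Agent.Helper28.GP
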